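import Pool.Agent.helper75.S6D.Spec

set_option autoImplicit false

open Polynomial Finset

noncomputable section

namespace Pool.Agent.S6D

open Pool.Agent.PSA

theorem BCN_sum (M : ℝ) (n : ℕ) : ∑ k ∈ range n, (M - k) ^ 2 =
    n * M ^ 2 - M * n * (n - 1) + (n - 1) * n * (2 * n - 1) / 6 := by
  induction n with
  | zero => simp
  | succ n ih =>
    rw [Finset.sum_range_succ, ih]
    push_cast
    ring

theorem BCN : BCN_stmt := by
  classical
  refine ⟨5000, fun A hA F hF => ?_⟩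
  have hA' : (1 : ℝ) ≤ A := by exact_mod_cast hA
  have hA0 : (0 : ℝ) < A := by linarith
  have hmaps : ∀ z ∈ F, z.1.natAbs ∈ range (4 * A + 21) := by
    intro z hz
    have h := (hF z hz).1
    rw [Finset.mem_range]
    have h2 : ((z.1.natAbs : ℕ) : ℤ) ≤ 4 * A + 20 := by
      rw [Int.natCast_natAbs]; exact h
    omega
  have hfib : ∀ k ∈ range (4 * A + 21), ((#{z ∈ F | z.1.natAbs = k} : ℕ) : ℝ) ≤
      2 * ((4 * (A : ℝ) - k) ^ 2 / (4 * A) + 17) := by
    intro k _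
    set u : ℤ := ⌊(8 : ℝ) + 2 * A + (k : ℝ) ^ 2 / (4 * A)⌋ with hu
    have hsub : {z ∈ F | z.1.natAbs = k} ⊆
        ({(k : ℤ), -(k : ℤ)} : Finset ℤ) ×ˢ Finset.Icc (2 * (k : ℤ) - 2 * A - 8) u := by
      intro z hz
      rw [Finset.mem_filter] at hz
      obtain ⟨hz1, hz2⟩ := hz
      obtain ⟨_, hb, hc, hd⟩ := hF z hz1
      have hcase : z.1 = k ∨ z.1 = -(k : ℤ) := by omega
      rw [Finset.mem_product, Finset.mem_Icc]
      refine ⟨?_, ?_, ?_⟩
      · rcases hcase with h | h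
        · rw [h]; simp
        · rw [h]; simp
      · rcases hcase with h | h <;> rw [h] at hb hc <;> omega
      · rw [hu, Int.le_floor]
        have hsq : (z.1 : ℝ) ^ 2 = (k : ℝ) ^ 2 := by
          rcases hcase with h | h <;> rw [h] <;> push_cast <;> ring
        rw [← hsq]
        exact hd
    have hcard := Finset.card_le_card hsub
    rw [Finset.card_product] at hcard
    have h2 : #({(k : ℤ), -(k : ℤ)} : Finset ℤ) ≤ 2 := Finset.card_le_two
    have h3 : ((#(Finset.Icc (2 * (k : ℤ) - 2 * A - 8) u) : ℕ) : ℝ) ≤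
        (4 * (A : ℝ) - k) ^ 2 / (4 * A) + 17 := by
      rw [Int.card_Icc]
      have h4 : (((u + 1 - (2 * (k : ℤ) - 2 * A - 8)).toNat : ℕ) : ℤ) =
          max (u + 1 - (2 * (k : ℤ) - 2 * A - 8)) 0 := Int.toNat_eq_max _
      have h5 : (((u + 1 - (2 * (k : ℤ) - 2 * A - 8)).toNat : ℕ) : ℝ) =
          ((max (u + 1 - (2 * (k : ℤ) - 2 * A - 8)) 0 : ℤ) : ℝ) := by
        rw [← h4]; push_cast; rfl
      rw [h5]
      push_cast
      apply max_le
      · have hfl : (u : ℝ) ≤ (8 : ℝ) + 2 * A + (k : ℝ) ^ 2 / (4 * A) := Int.floor_le _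
        have e : (4 * (A : ℝ) - k) ^ 2 / (4 * A) = 4 * A - 2 * k + (k : ℝ) ^ 2 / (4 * A) := by
          field_simp
          ring
        rw [e]
        linarith
      · positivity
    calc ((#{z ∈ F | z.1.natAbs = k} : ℕ) : ℝ)
        ≤ ((#({(k : ℤ), -(k : ℤ)} : Finset ℤ) * #(Finset.Icc (2 * (k : ℤ) - 2 * A - 8) u) : ℕ) : ℝ) := by
          exact_mod_cast hcard
      _ ≤ ((2 * #(Finset.Icc (2 * (k : ℤ) - 2 * A - 8) u) : ℕ) : ℝ) := by
          exact_mod_cast Nat.mul_le_mul_right _ h2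
      _ = 2 * ((#(Finset.Icc (2 * (k : ℤ) - 2 * A - 8) u) : ℕ) : ℝ) := by push_cast; ring
      _ ≤ _ := by linarith
  rw [Finset.card_eq_sum_card_fiberwise hmaps]
  push_cast
  refine (Finset.sum_le_sum hfib).trans ?_
  rw [← Finset.mul_sum, Finset.sum_add_distrib, ← Finset.sum_div, BCN_sum, Finset.sum_const,
    Finset.card_range, nsmul_eq_mul]
  push_cast
  have e : 2 * (((4 * (A : ℝ) + 21) * (4 * A) ^ 2 - 4 * A * (4 * A + 21) * (4 * A + 21 - 1) +
      (4 * A + 21 - 1) * (4 * A + 21) * (2 * (4 * A + 21) - 1) / 6) / (4 * A) + (4 * A + 21) * 17) =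
      32 / 3 * (A : ℝ) ^ 2 + 4 * A + 1 / 3 + 1435 / A + 34 * (4 * A + 21) := by
    field_simp
    ring
  rw [e]
  have h6 : 1435 / (A : ℝ) ≤ 1435 := by
    rw [div_le_iff₀ hA0]
    nlinarith
  nlinarith

end Pool.Agent.S6D
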