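import Pool.Agent.helper75.S6D.Spec

set_option autoImplicit false

open Polynomial Finset

noncomputable section

namespace Pool.Agent.S6D

open Pool.Agent.PSA

theorem CVX : CVX_stmt := by
  intro p q x y α β γ hpq hTr h1 h2 h3 h4
  obtain ⟨hx1, hx2, hy1, hy2⟩ := hTr
  have hW : (0 : ℝ) < (q.1 : ℝ) - p.1 := by
    have : (p.1 : ℝ) < q.1 := by exact_mod_cast hpq
    linarith
  have hs : (0 : ℝ) ≤ (q.1 : ℝ) - 65537 * x := by linarith
  have ht : (0 : ℝ) ≤ 65537 * x - (p.1 : ℝ) := by linarith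
  have key : 0 ≤ 65537 * ((q.1 : ℝ) - p.1) * (α + β * x + γ * y) := by
    rcases le_total 0 γ with hγ | hγ
    · have a1 := mul_nonneg hs h1
      have a2 := mul_nonneg ht h3
      have a3 := mul_le_mul_of_nonneg_left hy1 hγ
      nlinarith [a1, a2, a3]
    · have a1 := mul_nonneg hs h2
      have a2 := mul_nonneg ht h4
      have a3 := mul_le_mul_of_nonpos_left hy2 hγ
      nlinarith [a1, a2, a3]
  have hpos : (0 : ℝ) < 65537 * ((q.1 : ℝ) - p.1) := by positivity
  by_contra hneg
  push Not at hneg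
  have := mul_neg_of_pos_of_neg hpos hneg
  linarith

end Pool.Agent.S6D
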