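import Pool.Agent.helper75.S6D.Spec

set_option autoImplicit false

open Polynomial Finset

noncomputable section

namespace Pool.Agent.S6D

open Pool.Agent.PSA

theorem DJU : DJU_stmt := by
  classical
  intro Rs
  induction Rs with
  | nil =>
    intro _ _
    refine ⟨0, fun A _ => ⟨∅, fun z hz => absurd hz (Finset.notMem_empty z), ?_⟩⟩
    simp
  | cons r Rs ih =>
    intro h1 h2
    rw [List.pairwise_cons] at h2
    obtain ⟨K1, hK1⟩ := h1 r List.mem_cons_self
    obtain ⟨K2, hK2⟩ := ih (fun r' hr' => h1 r' (List.mem_cons_of_mem _ hr')) h2.2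
    refine ⟨K1 + K2, fun A hA => ?_⟩
    obtain ⟨F1, hF1, hc1⟩ := hK1 A hA
    obtain ⟨F2, hF2, hc2⟩ := hK2 A hA
    have hdis : Disjoint F1 F2 := by
      rw [Finset.disjoint_left]
      intro z hz1 hz2
      obtain ⟨r', hr', hr2⟩ := hF2 z hz2
      exact h2.1 r' hr' _ _ ⟨hF1 z hz1, hr2⟩
    refine ⟨F1 ∪ F2, ?_, ?_⟩
    · intro z hz
      rcases Finset.mem_union.mp hz with hz | hz
      · exact ⟨r, List.mem_cons_self, hF1 z hz⟩
      · obtain ⟨r', hr', hr2⟩ := hF2 z hz
        exact ⟨r', List.mem_cons_of_mem _ hr', hr2⟩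
    · rw [Finset.card_union_of_disjoint hdis, List.map_cons, List.sum_cons]
      push_cast
      have e : (r.2 + (Rs.map Prod.snd).sum) * (A : ℝ) ^ 2 - (K1 + K2) * A =
          (r.2 * (A : ℝ) ^ 2 - K1 * A) + ((Rs.map Prod.snd).sum * (A : ℝ) ^ 2 - K2 * A) := by ring
      rw [e]
      exact add_le_add hc1 hc2

end Pool.Agent.S6D
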